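import Pool.Agent.helper62.Col.Count

/-!
# The power saving bound
-/
set_option autoImplicit false
set_option exponentiation.threshold 4000
noncomputable section
namespace Pool.Agent.helper62.Col

/-- the exponent `H(log 2/log 3)` -/
def kap : ℝ := Real.binEntropy (Real.log 2 / Real.log 3) / Real.log 2

theorem theta_gt : (306 : ℝ) / 485 < Real.log 2 / Real.log 3 := by
  have h3 : 0 < Real.log 3 := Real.log_pos (by norm_num)
  rw [div_lt_div_iff₀ (by norm_num) h3]
  have h : Real.log ((3 : ℝ) ^ 306) < Real.log ((2 : ℝ) ^ 485) := Real.log_lt_log (by positivity) (by norm_num)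
  rw [Real.log_pow, Real.log_pow] at h
  push_cast at h
  linarith

theorem theta_lt : Real.log 2 / Real.log 3 < 1 := by
  have h3 : 0 < Real.log 3 := Real.log_pos (by norm_num)
  rw [div_lt_one h3]
  exact Real.log_lt_log (by norm_num) (by norm_num)

/-- `binEntropy` in terms of `t = p / (1 - p)` -/
theorem exp_entropy (p : ℝ) (h0 : 0 < p) (h1 : p < 1) :
    (p / (1 - p) + 1) / (p / (1 - p)) ^ p = Real.exp (Real.binEntropy p) := by
  have h2 : 0 < 1 - p := by linarith
  have ht : 0 < p / (1 - p) := by positivity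
  have h3 : p / (1 - p) + 1 = 1 / (1 - p) := by field_simp; ring
  rw [Real.binEntropy, h3, Real.rpow_def_of_pos ht, Real.log_div h0.ne' h2.ne', Real.log_inv, Real.log_inv]
  rw [div_eq_iff (Real.exp_pos _).ne', ← Real.exp_add]
  have : p * -Real.log p + (1 - p) * -Real.log (1 - p) + (Real.log p - Real.log (1 - p)) * p
      = - Real.log (1 - p) := by ring
  rw [this, Real.exp_neg, Real.exp_log h2, one_div]

/-- Gibbs: upper bound for the entropy -/
theorem entropy_le (p t : ℝ) (h0 : 0 < p) (h1 : p < 1) (ht : 0 < t) :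
    Real.binEntropy p ≤ Real.log (1 + t) - p * Real.log t := by
  have h2 : 0 < 1 - p := by linarith
  have e1 : Real.log (t / ((1 + t) * p)) ≤ t / ((1 + t) * p) - 1 := Real.log_le_sub_one_of_pos (by positivity)
  have e2 : Real.log (1 / ((1 + t) * (1 - p))) ≤ 1 / ((1 + t) * (1 - p)) - 1 :=
    Real.log_le_sub_one_of_pos (by positivity)
  have f1 : Real.log (t / ((1 + t) * p)) = Real.log t - Real.log (1 + t) - Real.log p := by
    rw [Real.log_div ht.ne' (by positivity), Real.log_mul (by positivity) h0.ne']; ring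
  have f2 : Real.log (1 / ((1 + t) * (1 - p))) = - Real.log (1 + t) - Real.log (1 - p) := by
    rw [Real.log_div (by norm_num) (by positivity), Real.log_mul (by positivity) h2.ne', Real.log_one]; ring
  rw [f1] at e1
  rw [f2] at e2
  have g1 : p * (Real.log t - Real.log (1 + t) - Real.log p) ≤ p * (t / ((1 + t) * p) - 1) :=
    mul_le_mul_of_nonneg_left e1 h0.le
  have g2 : (1 - p) * (- Real.log (1 + t) - Real.log (1 - p)) ≤ (1 - p) * (1 / ((1 + t) * (1 - p)) - 1) :=
    mul_le_mul_of_nonneg_left e2 h2.le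
  have g3 : p * (t / ((1 + t) * p) - 1) + (1 - p) * (1 / ((1 + t) * (1 - p)) - 1) = 0 := by
    have : (1 + t) ≠ 0 := by positivity
    have := h2.ne'
    field_simp
    ring
  rw [Real.binEntropy, Real.log_inv, Real.log_inv]
  nlinarith [g1, g2, g3]

theorem kap_lt : kap < 19 / 20 := by
  have hl2 : 0 < Real.log 2 := Real.log_pos (by norm_num)
  have hθ := theta_gt
  have hθ1 := theta_lt
  have hθ0 : 0 < Real.log 2 / Real.log 3 := by linarith
  rw [kap, div_lt_iff₀ hl2]
  have h1 := entropy_le _ (12 / 7) hθ0 hθ1 (by norm_num)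
  have hl : 0 < Real.log (12 / 7) := Real.log_pos (by norm_num)
  have h2 : (306 / 485 : ℝ) * Real.log (12 / 7) < Real.log 2 / Real.log 3 * Real.log (12 / 7) :=
    mul_lt_mul_of_pos_right hθ hl
  have h3 : Real.log (1 + 12 / 7) < 19 / 20 * Real.log 2 + 306 / 485 * Real.log (12 / 7) := by
    have h : Real.log ((1 + 12 / 7 : ℝ) ^ 1940) < Real.log ((2 : ℝ) ^ 1843 * (12 / 7) ^ 1224) := by
      apply Real.log_lt_log (by positivity)
      norm_num
    rw [Real.log_mul (by positivity) (by positivity), Real.log_pow, Real.log_pow, Real.log_pow] at h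
    push_cast at h
    linarith
  linarith

theorem kap_pos : 0 < kap := by
  have hl2 : 0 < Real.log 2 := Real.log_pos (by norm_num)
  apply div_pos _ hl2
  apply Real.binEntropy_pos
  · have := theta_gt; linarith
  · exact theta_lt

/-- choice of the parameters -/
theorem choice (s : ℝ) (hs : kap < s) : ∃ a t : ℝ, 0 < a ∧ 1 ≤ t ∧ (3 : ℝ) ^ a < 2 ∧
    (t + 1) / t ^ a < 2 ^ s := by
  have hl2 : 0 < Real.log 2 := Real.log_pos (by norm_num)
  have hl3 : 0 < Real.log 3 := Real.log_pos (by norm_num)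
  set θ := Real.log 2 / Real.log 3 with hθdef
  have hθ : (306 : ℝ) / 485 < θ := theta_gt
  have hθ1 : θ < 1 := theta_lt
  have hopen : {p : ℝ | Real.binEntropy p < s * Real.log 2} ∈ nhds θ := by
    apply (isOpen_lt Real.binEntropy_continuous continuous_const).mem_nhds
    have : kap < s := hs
    rw [kap, div_lt_iff₀ hl2] at this
    exact this
  rw [Metric.mem_nhds_iff] at hopen
  obtain ⟨ε, hε, hball⟩ := hopen
  set a := max (θ - ε / 2) (3 / 5) with ha
  have ha1 : 3 / 5 ≤ a := le_max_right _ _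
  have ha2 : a < θ := by
    apply max_lt
    · linarith
    · linarith
  have ha3 : a ∈ Metric.ball θ ε := by
    rw [Metric.mem_ball, Real.dist_eq, abs_lt]
    have : θ - ε / 2 ≤ a := le_max_left _ _
    constructor <;> linarith
  have ha4 : Real.binEntropy a < s * Real.log 2 := hball ha3
  have h1a : 0 < 1 - a := by linarith
  refine ⟨a, a / (1 - a), by linarith, ?_, ?_, ?_⟩
  · rw [le_div_iff₀ h1a]; linarith
  · rw [Real.rpow_def_of_pos (by norm_num)]
    have : Real.log 3 * a < Real.log 2 := by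
      have h := mul_lt_mul_of_pos_left ha2 hl3
      have h' : Real.log 3 * θ = Real.log 2 := by rw [hθdef]; field_simp
      linarith
    calc Real.exp (Real.log 3 * a) < Real.exp (Real.log 2) := Real.exp_lt_exp.2 this
      _ = 2 := Real.exp_log (by norm_num)
  · rw [exp_entropy a (by linarith) (by linarith), Real.rpow_def_of_pos (by norm_num)]
    apply Real.exp_lt_exp.2
    linarith

/-- polynomial times lower exponential -/
theorem error_bound (b q : ℝ) (hb : 0 < b) (hbq : b < q) (hq : 1 < q) :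
    ∃ C : ℝ, 0 < C ∧ ∀ k : ℕ, 1 + 2 * b ^ k + (k : ℝ) * k ≤ C * q ^ k := by
  have h1 := tendsto_pow_const_div_const_pow_of_one_lt 2 hq
  obtain ⟨M, hM⟩ := h1.bddAbove_range
  have hM' : ∀ k : ℕ, (k : ℝ) * k ≤ (|M| + 1) * q ^ k := by
    intro k
    have h2 : (k : ℝ) ^ 2 / q ^ k ≤ M := hM ⟨k, rfl⟩
    have hqk : 0 < q ^ k := by positivity
    rw [div_le_iff₀ hqk] at h2
    have h3 : M * q ^ k ≤ (|M| + 1) * q ^ k := by
      apply mul_le_mul_of_nonneg_right _ hqk.le
      have := le_abs_self M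
      linarith
    nlinarith
  refine ⟨3 + (|M| + 1), by positivity, fun k => ?_⟩
  have h4 : b ^ k ≤ q ^ k := pow_le_pow_left₀ hb.le hbq.le k
  have h5 : (1 : ℝ) ≤ q ^ k := one_le_pow₀ hq.le
  have h6 := hM' k
  linarith

theorem count_pow (s : ℝ) (hs : kap < s) : ∃ C : ℝ, 0 < C ∧
    ∀ k : ℕ, ((PS (2 ^ k)).ncard : ℝ) ≤ C * ((2 : ℝ) ^ s) ^ k := by
  obtain ⟨a, t, ha, ht, h3a, hb⟩ := choice s hs
  have hs0 : 0 < s := lt_trans kap_pos hs
  set q : ℝ := (2 : ℝ) ^ s with hq
  have hq1 : 1 < q := Real.one_lt_rpow (by norm_num) hs0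
  have htp : 0 < t := by linarith
  obtain ⟨C1, hC1, hE⟩ := error_bound ((t + 1) / t ^ a) q (by positivity) hb hq1
  -- for large k the recursion goes down
  have hr : 1 < 2 / (3 : ℝ) ^ a := by
    rw [lt_div_iff₀ (by positivity)]; linarith
  have hlim := (tendsto_pow_atTop_atTop_of_one_lt hr).eventually_ge_atTop 4
  rw [Filter.eventually_atTop] at hlim
  obtain ⟨k0, hk0⟩ := hlim
  set P : ℕ → ℝ := fun k => ((PS (2 ^ k)).ncard : ℝ) with hP
  have hrec : ∀ k, k0 ≤ k → 1 ≤ k → P k ≤ C1 * q ^ k + P (k - 1) := by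
    intro k hk hk1
    have h1 := recursion k hk1 t a ht
    have h2 := hE k
    have h3 : (2 * (3 : ℝ) ^ (a * k)) ≤ 2 ^ (k - 1) := by
      have h4 := hk0 k hk
      rw [div_pow, le_div_iff₀ (by positivity)] at h4
      have h5 : ((3 : ℝ) ^ a) ^ k = (3 : ℝ) ^ (a * k) := by
        rw [← Real.rpow_natCast, ← Real.rpow_mul (by norm_num)]
      rw [h5] at h4
      have h6 : (2 : ℝ) ^ k = 2 * 2 ^ (k - 1) := by
        rw [← pow_succ']
        congr 1
        omega
      rw [h6] at h4
      linarith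
    have h7 : ((PS (2 * (3 : ℝ) ^ (a * k))).ncard : ℝ) ≤ P (k - 1) :=
      Nat.cast_le.2 (Set.ncard_le_ncard (PS_mono h3) (PS_finite _))
    have h8 : P k ≤ _ := h1
    linarith
  have hPmono : ∀ j k, j ≤ k → P j ≤ P k := by
    intro j k hjk
    have : (2 : ℝ) ^ j ≤ 2 ^ k := pow_le_pow_right₀ (by norm_num) hjk
    exact Nat.cast_le.2 (Set.ncard_le_ncard (PS_mono this) (PS_finite _))
  have hq0 : 0 < q - 1 := by linarith
  refine ⟨P k0 + C1 * (q / (q - 1)) + 1, by positivity, ?_⟩
  set C := P k0 + C1 * (q / (q - 1)) + 1 with hC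
  have hC0 : C1 * (q / (q - 1)) ≤ C := by
    have : 0 ≤ P k0 := by positivity
    linarith
  have hCq : C1 + C / q ≤ C := by
    have h1 : C1 * (q / (q - 1)) * ((q - 1) / q) ≤ C * ((q - 1) / q) :=
      mul_le_mul_of_nonneg_right hC0 (by positivity)
    have h2 : C1 * (q / (q - 1)) * ((q - 1) / q) = C1 := by field_simp
    have h3 : C * ((q - 1) / q) = C - C / q := by field_simp
    linarith
  intro k
  induction k with
  | zero =>
    have h1 := hPmono 0 k0 (Nat.zero_le _)
    have h2 : 0 ≤ C1 * (q / (q - 1)) := by positivity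
    show P 0 ≤ C * q ^ 0
    rw [pow_zero, mul_one]
    linarith
  | succ k ih =>
    by_cases hk : k0 ≤ k + 1
    · have h1 := hrec (k + 1) hk (by omega)
      rw [Nat.add_sub_cancel] at h1
      show P (k + 1) ≤ C * q ^ (k + 1)
      have ih' : P k ≤ C * q ^ k := ih
      have hqk : 0 < q ^ (k + 1) := by positivity
      have h2 : C * q ^ k = C / q * q ^ (k + 1) := by
        rw [pow_succ]; field_simp
      calc P (k + 1) ≤ C1 * q ^ (k + 1) + C * q ^ k := by linarith
        _ = (C1 + C / q) * q ^ (k + 1) := by rw [h2]; ring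
        _ ≤ C * q ^ (k + 1) := mul_le_mul_of_nonneg_right hCq hqk.le
    · have h1 := hPmono (k + 1) k0 (by omega)
      have h2 : 0 ≤ C1 * (q / (q - 1)) := by positivity
      have h3 : (1 : ℝ) ≤ q ^ (k + 1) := one_le_pow₀ hq1.le
      show P (k + 1) ≤ C * q ^ (k + 1)
      have h4 : P k0 ≤ C := by linarith
      have h5 : 0 ≤ P k0 := by positivity
      have h6 : C * 1 ≤ C * q ^ (k + 1) := by
        apply mul_le_mul_of_nonneg_left h3
        linarith
      linarith

/-- the main bound -/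
theorem count_real (s : ℝ) (hs : kap < s) : ∃ C : ℝ, 0 < C ∧
    ∀ x : ℝ, 1 ≤ x → ((PS x).ncard : ℝ) ≤ C * x ^ s := by
  obtain ⟨C, hC, h⟩ := count_pow s hs
  have hs0 : 0 < s := lt_trans kap_pos hs
  refine ⟨C * (2 : ℝ) ^ s, by positivity, fun x hx => ?_⟩
  obtain ⟨k, hk1, hk2⟩ : ∃ k : ℕ, x ≤ 2 ^ k ∧ (2 : ℝ) ^ k ≤ 2 * x := by
    have hex : ∃ k : ℕ, x ≤ 2 ^ k := by
      obtain ⟨k, hk⟩ := pow_unbounded_of_one_lt x (by norm_num : (1 : ℝ) < 2)
      exact ⟨k, hk.le⟩
    classical
    refine ⟨Nat.find hex, Nat.find_spec hex, ?_⟩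
    by_cases h0 : Nat.find hex = 0
    · rw [h0, pow_zero]; linarith
    · have h1 := Nat.find_min hex (m := Nat.find hex - 1) (by omega)
      push Not at h1
      have h2 : (2 : ℝ) ^ (Nat.find hex) = 2 * 2 ^ (Nat.find hex - 1) := by
        rw [← pow_succ']
        congr 1
        omega
      rw [h2]
      linarith
  calc ((PS x).ncard : ℝ) ≤ ((PS (2 ^ k)).ncard : ℝ) := by
        exact_mod_cast Set.ncard_le_ncard (PS_mono hk1) (PS_finite _)
    _ ≤ C * ((2 : ℝ) ^ s) ^ k := h k
    _ = C * ((2 : ℝ) ^ k) ^ s := by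
        congr 1
        rw [← Real.rpow_natCast, ← Real.rpow_natCast, ← Real.rpow_mul (by norm_num),
          ← Real.rpow_mul (by norm_num), mul_comm]
    _ ≤ C * (2 * x) ^ s := by gcongr
    _ = C * (2 : ℝ) ^ s * x ^ s := by
        rw [Real.mul_rpow (by norm_num) (by linarith)]; ring

end Pool.Agent.helper62.Col
end
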