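import Mathlib

/-!
# Periodic points of the 3x+1 map: counting
-/
set_option autoImplicit false
noncomputable section
namespace Pool.Agent.helper62.Col

/-- the 3x+1 map on the integers -/
def T (n : ℤ) : ℤ := if n % 2 = 0 then n / 2 else (3 * n + 1) / 2

theorem two_mul_T_even {n : ℤ} (h : n % 2 = 0) : 2 * T n = n := by
  unfold T; rw [if_pos h]; omega

theorem two_mul_T_odd {n : ℤ} (h : ¬ n % 2 = 0) : 2 * T n = 3 * n + 1 := by
  unfold T; rw [if_neg h]; omega

/-- the set of times before `k` at which the orbit of `n` is odd -/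
def code (k : ℕ) (n : ℤ) : Finset ℕ := (Finset.range k).filter fun i => ¬ (T^[i] n) % 2 = 0

theorem code_subset (k : ℕ) (n : ℤ) : code k n ⊆ Finset.range k := Finset.filter_subset _ _

theorem mem_code {k i : ℕ} {n : ℤ} : i ∈ code k n ↔ i < k ∧ ¬ (T^[i] n) % 2 = 0 := by
  unfold code; simp

/-- same parities up to time `k` force congruence modulo `2^k` -/
theorem dvd_of_code (k : ℕ) : ∀ (n m : ℤ), code k n = code k m → (2 : ℤ) ^ k ∣ n - m := by
  induction k with
  | zero => intro n m _; simp
  | succ k ih =>
    intro n m h
    have h0 : (n % 2 = 0) ↔ (m % 2 = 0) := by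
      have h1 : (0 ∈ code (k + 1) n) ↔ (0 ∈ code (k + 1) m) := by rw [h]
      rw [mem_code, mem_code] at h1
      simp only [Function.iterate_zero, id_eq, Nat.zero_lt_succ, true_and] at h1
      tauto
    have h2 : code k (T n) = code k (T m) := by
      ext i
      have h1 : (i + 1 ∈ code (k + 1) n) ↔ (i + 1 ∈ code (k + 1) m) := by rw [h]
      rw [mem_code, mem_code] at h1
      rw [Function.iterate_succ_apply, Function.iterate_succ_apply] at h1
      rw [mem_code, mem_code]
      constructor
      · rintro ⟨h3, h4⟩
        exact ⟨h3, (h1.1 ⟨by omega, h4⟩).2⟩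
      · rintro ⟨h3, h4⟩
        exact ⟨h3, (h1.2 ⟨by omega, h4⟩).2⟩
    have h3 := ih _ _ h2
    by_cases hn : n % 2 = 0
    · have hm := h0.1 hn
      have e : n - m = 2 * (T n - T m) := by
        have := two_mul_T_even hn
        have := two_mul_T_even hm
        linarith
      rw [e, pow_succ, mul_comm]
      exact mul_dvd_mul_left 2 h3
    · have hm : ¬ m % 2 = 0 := fun h => hn (h0.2 h)
      have e : 3 * (n - m) = 2 * (T n - T m) := by
        have := two_mul_T_odd hn
        have := two_mul_T_odd hm
        linarith
      have h4 : (2 : ℤ) ^ (k + 1) ∣ 3 * (n - m) := by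
        rw [e, pow_succ, mul_comm]
        exact mul_dvd_mul_left 2 h3
      have h5 : IsCoprime ((2 : ℤ) ^ (k + 1)) 3 := by
        apply IsCoprime.pow_left
        rw [Int.isCoprime_iff_gcd_eq_one]
        norm_num
      exact h5.dvd_of_dvd_mul_left h4

/-- weight sum over a set of integers in an interval of length less than `2^k` -/
theorem sum_weight (k : ℕ) (S : Finset ℤ) (hS : ∀ n ∈ S, ∀ m ∈ S, |n - m| < 2 ^ k) (t : ℝ) (ht : 0 ≤ t) :
    ∑ n ∈ S, t ^ (code k n).card ≤ (t + 1) ^ k := by
  have hinj : Set.InjOn (code k) (S : Set ℤ) := by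
    intro n hn m hm h
    have h1 := dvd_of_code k n m h
    have h2 := hS n hn m hm
    have h3 := Int.eq_zero_of_abs_lt_dvd h1 h2
    linarith
  calc ∑ n ∈ S, t ^ (code k n).card = ∑ U ∈ S.image (code k), t ^ U.card := by
        rw [Finset.sum_image hinj]
    _ ≤ ∑ U ∈ (Finset.range k).powerset, t ^ U.card := by
        apply Finset.sum_le_sum_of_subset_of_nonneg
        · intro U hU
          rw [Finset.mem_image] at hU
          obtain ⟨n, _, rfl⟩ := hU
          exact Finset.mem_powerset.2 (code_subset k n)
        · intro U _ _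
          positivity
    _ = (t + 1) ^ k := by
        have := Finset.sum_pow_mul_eq_add_pow t (1 : ℝ) (Finset.range k)
        simpa using this

/-- large deviations -/
theorem card_big (k : ℕ) (S : Finset ℤ) (hS : ∀ n ∈ S, ∀ m ∈ S, |n - m| < 2 ^ k) (t a : ℝ) (ht : 1 ≤ t)
    (hb : ∀ n ∈ S, a * k ≤ (code k n).card) : (S.card : ℝ) ≤ ((t + 1) / t ^ a) ^ k := by
  have h1 := sum_weight k S hS t (by linarith)
  have h2 : (S.card : ℝ) * (t ^ a) ^ k ≤ ∑ n ∈ S, t ^ (code k n).card := by
    rw [← nsmul_eq_mul, ← Finset.sum_const]
    apply Finset.sum_le_sum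
    intro n hn
    rw [← Real.rpow_natCast (t ^ a) k, ← Real.rpow_mul (by linarith), ← Real.rpow_natCast]
    exact Real.rpow_le_rpow_of_exponent_le ht (hb n hn)
  have h3 : (0 : ℝ) < (t ^ a) ^ k := by positivity
  rw [div_pow, le_div_iff₀ h3]
  linarith

/-- negative orbits -/
theorem iter_neg (k : ℕ) : ∀ (n : ℤ), n < 0 → T^[k] n < 0 ∧
    (2 : ℤ) ^ k * |T^[k] n| ≤ 3 ^ (code k n).card * |n| := by
  induction k with
  | zero => intro n hn; simp [code, hn]
  | succ k ih =>
    intro n hn
    have hT : T n < 0 := by
      by_cases h : n % 2 = 0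
      · have := two_mul_T_even h; omega
      · have := two_mul_T_odd h; omega
    obtain ⟨h1, h2⟩ := ih (T n) hT
    rw [Function.iterate_succ_apply]
    refine ⟨h1, ?_⟩
    have hcard : (code (k + 1) n).card = (code k (T n)).card + (if n % 2 = 0 then 0 else 1) := by
      have hc : code (k + 1) n = (code k (T n)).map ⟨(· + 1), add_left_injective 1⟩ ∪
          (if n % 2 = 0 then ∅ else {0}) := by
        ext i
        rw [mem_code, Finset.mem_union, Finset.mem_map]
        cases i with
        | zero =>
          by_cases h : n % 2 = 0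
          · simp [h]
          · simp [h]
        | succ i =>
          rw [Function.iterate_succ_apply]
          constructor
          · rintro ⟨h3, h4⟩
            left
            exact ⟨i, mem_code.2 ⟨by omega, h4⟩, rfl⟩
          · rintro (⟨j, hj, he⟩ | h3)
            · simp only [Function.Embedding.coeFn_mk] at he
              have : j = i := by omega
              subst this
              have := mem_code.1 hj
              exact ⟨by omega, this.2⟩
            · exfalso
              split_ifs at h3 with h <;> simp at h3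
      rw [hc, Finset.card_union_of_disjoint, Finset.card_map]
      · split_ifs <;> simp
      · rw [Finset.disjoint_left]
        intro i hi hi2
        rw [Finset.mem_map] at hi
        obtain ⟨j, _, he⟩ := hi
        simp only [Function.Embedding.coeFn_mk] at he
        split_ifs at hi2 with h
        · simp at hi2
        · simp at hi2; omega
    rw [hcard]
    have hT' : 2 * |T n| ≤ 3 ^ (if n % 2 = 0 then 0 else 1) * |n| := by
      rw [abs_of_neg hT, abs_of_neg hn]
      by_cases h : n % 2 = 0
      · have := two_mul_T_even h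
        rw [if_pos h]; linarith
      · have := two_mul_T_odd h
        rw [if_neg h]; linarith
    calc (2 : ℤ) ^ (k + 1) * |T^[k] (T n)| = 2 * (2 ^ k * |T^[k] (T n)|) := by ring
      _ ≤ 2 * (3 ^ (code k (T n)).card * |T n|) := by linarith
      _ = 3 ^ (code k (T n)).card * (2 * |T n|) := by ring
      _ ≤ 3 ^ (code k (T n)).card * (3 ^ (if n % 2 = 0 then 0 else 1) * |n|) := by
          apply mul_le_mul_of_nonneg_left hT' (by positivity)
      _ = 3 ^ ((code k (T n)).card + (if n % 2 = 0 then 0 else 1)) * |n| := by
          rw [pow_add]; ring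

end Pool.Agent.helper62.Col
end
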