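import Pool.Agent.helper62.Col.Basic

/-!
# Counting periodic points of the 3x+1 map
-/
set_option autoImplicit false
noncomputable section
namespace Pool.Agent.helper62.Col

theorem card_code_succ (k : ℕ) (n : ℤ) :
    (code (k + 1) n).card = (code k (T n)).card + (if n % 2 = 0 then 0 else 1) := by
  have hc : code (k + 1) n = (code k (T n)).map ⟨(· + 1), add_left_injective 1⟩ ∪
      (if n % 2 = 0 then ∅ else {0}) := by
    ext i
    rw [mem_code, Finset.mem_union, Finset.mem_map]
    cases i with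
    | zero =>
      by_cases h : n % 2 = 0
      · simp [h]
      · simp [h]
    | succ i =>
      rw [Function.iterate_succ_apply]
      constructor
      · rintro ⟨h3, h4⟩
        left
        exact ⟨i, mem_code.2 ⟨by omega, h4⟩, rfl⟩
      · rintro (⟨j, hj, he⟩ | h3)
        · simp only [Function.Embedding.coeFn_mk] at he
          have : j = i := by omega
          subst this
          have := mem_code.1 hj
          exact ⟨by omega, this.2⟩
        · exfalso
          split_ifs at h3 with h <;> simp at h3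
  rw [hc, Finset.card_union_of_disjoint, Finset.card_map]
  · split_ifs <;> simp
  · rw [Finset.disjoint_left]
    intro i hi hi2
    rw [Finset.mem_map] at hi
    obtain ⟨j, _, he⟩ := hi
    simp only [Function.Embedding.coeFn_mk] at he
    split_ifs at hi2 with h
    · simp at hi2
    · simp at hi2; omega

/-- positive orbits staying above `y` -/
theorem iter_pos (y : ℝ) (hy : 0 < y) (k : ℕ) : ∀ (n : ℤ), 0 < n → (∀ i < k, y ≤ (T^[i] n : ℤ)) →
    0 < T^[k] n ∧ (2 : ℝ) ^ k * (T^[k] n : ℤ) ≤ 3 ^ (code k n).card * (1 + 1 / (3 * y)) ^ k * n := by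
  induction k with
  | zero => intro n hn _; simp [code, hn]
  | succ k ih =>
    intro n hn hi
    have hT : 0 < T n := by
      by_cases h : n % 2 = 0
      · have := two_mul_T_even h; omega
      · have := two_mul_T_odd h; omega
    obtain ⟨h1, h2⟩ := ih (T n) hT (by
      intro i hik
      have := hi (i + 1) (by omega)
      rwa [Function.iterate_succ_apply] at this)
    rw [Function.iterate_succ_apply]
    refine ⟨h1, ?_⟩
    rw [card_code_succ]
    have hn0 : y ≤ (n : ℝ) := by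
      have := hi 0 (by omega)
      simpa using this
    have hn' : (0 : ℝ) < n := lt_of_lt_of_le hy hn0
    have hT' : (2 : ℝ) * (T n : ℤ) ≤ 3 ^ (if n % 2 = 0 then 0 else 1) * (1 + 1 / (3 * y)) * n := by
      by_cases h : n % 2 = 0
      · have h3 := two_mul_T_even h
        have h4 : (2 : ℝ) * (T n : ℤ) = n := by exact_mod_cast h3
        rw [if_pos h, h4, pow_zero, one_mul]
        have : 0 ≤ 1 / (3 * y) * n := by positivity
        linarith
      · have h3 := two_mul_T_odd h
        have h4 : (2 : ℝ) * (T n : ℤ) = 3 * n + 1 := by exact_mod_cast h3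
        rw [if_neg h, h4, pow_one]
        have h5 : 1 ≤ (n : ℝ) / y := by rwa [le_div_iff₀ hy, one_mul]
        have h6 : 3 * (1 + 1 / (3 * y)) * (n : ℝ) = 3 * n + n / y := by
          field_simp
        rw [h6]
        linarith
    have hA : (0 : ℝ) ≤ 3 ^ (code k (T n)).card * (1 + 1 / (3 * y)) ^ k := by positivity
    calc (2 : ℝ) ^ (k + 1) * (T^[k] (T n) : ℤ) = 2 * (2 ^ k * (T^[k] (T n) : ℤ)) := by ring
      _ ≤ 2 * (3 ^ (code k (T n)).card * (1 + 1 / (3 * y)) ^ k * (T n : ℤ)) := by linarith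
      _ = 3 ^ (code k (T n)).card * (1 + 1 / (3 * y)) ^ k * (2 * (T n : ℤ)) := by ring
      _ ≤ 3 ^ (code k (T n)).card * (1 + 1 / (3 * y)) ^ k *
          (3 ^ (if n % 2 = 0 then 0 else 1) * (1 + 1 / (3 * y)) * n) :=
          mul_le_mul_of_nonneg_left hT' hA
      _ = 3 ^ ((code k (T n)).card + (if n % 2 = 0 then 0 else 1)) * (1 + 1 / (3 * y)) ^ (k + 1) * n := by
          rw [pow_add]; ring

theorem iter_pos_pos (k : ℕ) : ∀ (n : ℤ), 0 < n → 0 < T^[k] n := by
  induction k with
  | zero => intro n hn; simpa using hn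
  | succ k ih =>
    intro n hn
    rw [Function.iterate_succ_apply]
    apply ih
    by_cases h : n % 2 = 0
    · have := two_mul_T_even h; omega
    · have := two_mul_T_odd h; omega

/-- `T^k` is injective on periodic points -/
theorem iter_injOn (k : ℕ) : Set.InjOn (T^[k]) (Function.periodicPts T) := by
  have h : Set.BijOn (T^[k]) (Function.periodicPts T) (Function.periodicPts T) :=
    (Function.bijOn_periodicPts T).iterate k
  exact h.injOn

theorem iter_mem (k : ℕ) {n : ℤ} (hn : n ∈ Function.periodicPts T) :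
    T^[k] n ∈ Function.periodicPts T := by
  have h : Set.BijOn (T^[k]) (Function.periodicPts T) (Function.periodicPts T) :=
    (Function.bijOn_periodicPts T).iterate k
  exact h.mapsTo hn

/-- periodic points whose orbit of length `k` hits `[1,Y]` -/
theorem ncard_hit (k Y : ℕ) :
    {n : ℤ | n ∈ Function.periodicPts T ∧ ∃ i < k, 1 ≤ T^[i] n ∧ T^[i] n ≤ Y}.Finite ∧
    {n : ℤ | n ∈ Function.periodicPts T ∧ ∃ i < k, 1 ≤ T^[i] n ∧ T^[i] n ≤ Y}.ncard ≤ k * Y := by
  induction k with
  | zero =>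
    have : {n : ℤ | n ∈ Function.periodicPts T ∧ ∃ i < 0, 1 ≤ T^[i] n ∧ T^[i] n ≤ Y} = ∅ := by
      ext n; simp
    rw [this]; simp
  | succ k ih =>
    set B : Set ℤ := {n : ℤ | n ∈ Function.periodicPts T ∧ 1 ≤ T^[k] n ∧ T^[k] n ≤ Y} with hB
    have hmap : Set.MapsTo (T^[k]) B (Set.Icc (1 : ℤ) Y) := fun n hn => ⟨hn.2.1, hn.2.2⟩
    have hinj : Set.InjOn (T^[k]) B := (iter_injOn k).mono fun n hn => hn.1
    have hfin : (Set.Icc (1 : ℤ) (Y : ℤ)).Finite := Set.finite_Icc _ _
    have hBf : B.Finite := Set.Finite.of_injOn hmap hinj hfin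
    have hBc : B.ncard ≤ Y := by
      have h1 := Set.ncard_le_ncard_of_injOn (T^[k]) hmap hinj hfin
      have h2 : (Set.Icc (1 : ℤ) (Y : ℤ)).ncard = Y := by
        rw [Set.ncard_eq_toFinset_card', Set.toFinset_Icc, Int.card_Icc]
        omega
      omega
    have hsub : {n : ℤ | n ∈ Function.periodicPts T ∧ ∃ i < k + 1, 1 ≤ T^[i] n ∧ T^[i] n ≤ Y} ⊆
        {n : ℤ | n ∈ Function.periodicPts T ∧ ∃ i < k, 1 ≤ T^[i] n ∧ T^[i] n ≤ Y} ∪ B := by
      rintro n ⟨hn, i, hi, h1, h2⟩
      by_cases hik : i < k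
      · exact Or.inl ⟨hn, i, hik, h1, h2⟩
      · have : i = k := by omega
        subst this
        exact Or.inr ⟨hn, h1, h2⟩
    refine ⟨(ih.1.union hBf).subset hsub, ?_⟩
    calc _ ≤ ({n : ℤ | n ∈ Function.periodicPts T ∧ ∃ i < k, 1 ≤ T^[i] n ∧ T^[i] n ≤ Y} ∪ B).ncard :=
          Set.ncard_le_ncard hsub (ih.1.union hBf)
      _ ≤ _ := Set.ncard_union_le _ _
      _ ≤ k * Y + Y := by omega
      _ = (k + 1) * Y := by ring

/-- periodic points of absolute value at most `X` -/
def PS (X : ℝ) : Set ℤ := {n : ℤ | n ∈ Function.periodicPts T ∧ |(n : ℝ)| ≤ X}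

theorem PS_finite (X : ℝ) : (PS X).Finite := by
  apply (Set.finite_Icc (-⌈X⌉) ⌈X⌉).subset
  rintro n ⟨_, hn⟩
  rw [abs_le] at hn
  have h1 : X ≤ ⌈X⌉ := Int.le_ceil X
  constructor
  · have : (-⌈X⌉ : ℝ) ≤ n := by linarith
    exact_mod_cast this
  · have : (n : ℝ) ≤ ⌈X⌉ := by linarith
    exact_mod_cast this

theorem PS_mono {X Y : ℝ} (h : X ≤ Y) : PS X ⊆ PS Y := fun _ hn => ⟨hn.1, hn.2.trans h⟩

theorem exp_third : Real.exp (1 / 3) ≤ 2 := by
  have h1 := Real.exp_one_lt_d9
  have h2 : Real.exp (1 / 3) ^ 3 = Real.exp 1 := by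
    rw [← Real.exp_nat_mul]; norm_num
  by_contra hc
  push Not at hc
  have h3 : (2 : ℝ) ^ 3 < Real.exp (1 / 3) ^ 3 := by gcongr
  rw [h2] at h3
  norm_num at h3
  linarith

/-- the recursion -/
theorem recursion (k : ℕ) (hk : 1 ≤ k) (t a : ℝ) (ht : 1 ≤ t) :
    ((PS (2 ^ k)).ncard : ℝ) ≤ 1 + 2 * ((t + 1) / t ^ a) ^ k + (k : ℝ) * k
      + ((PS (2 * (3 : ℝ) ^ (a * k))).ncard : ℝ) := by
  set A1 : Set ℤ := {n : ℤ | 1 ≤ n ∧ n ≤ 2 ^ k ∧ a * k ≤ (code k n).card} with hA1
  set A2 : Set ℤ := {n : ℤ | -2 ^ k ≤ n ∧ n ≤ -1 ∧ a * k ≤ (code k n).card} with hA2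
  set A3 : Set ℤ := {n : ℤ | n ∈ Function.periodicPts T ∧ ∃ i < k, 1 ≤ T^[i] n ∧ T^[i] n ≤ k} with hA3
  set A4 : Set ℤ := {n : ℤ | n ∈ Function.periodicPts T ∧
    |((T^[k] n : ℤ) : ℝ)| ≤ 2 * (3 : ℝ) ^ (a * k)} with hA4
  have hf1 : A1.Finite := (Set.finite_Icc (1 : ℤ) (2 ^ k)).subset fun n hn => ⟨hn.1, hn.2.1⟩
  have hf2 : A2.Finite := (Set.finite_Icc (-2 ^ k : ℤ) (-1)).subset fun n hn => ⟨hn.1, hn.2.1⟩
  have hf3 : A3.Finite := (ncard_hit k k).1
  have hmap4 : Set.MapsTo (T^[k]) A4 (PS (2 * (3 : ℝ) ^ (a * k))) :=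
    fun n hn => ⟨iter_mem k hn.1, hn.2⟩
  have hinj4 : Set.InjOn (T^[k]) A4 := (iter_injOn k).mono fun n hn => hn.1
  have hf4 : A4.Finite := Set.Finite.of_injOn hmap4 hinj4 (PS_finite _)
  have hc1 : (A1.ncard : ℝ) ≤ ((t + 1) / t ^ a) ^ k := by
    rw [Set.ncard_eq_toFinset_card _ hf1]
    apply card_big k _ _ t a ht
    · intro n hn
      rw [Set.Finite.mem_toFinset] at hn
      exact hn.2.2
    · intro n hn m hm
      rw [Set.Finite.mem_toFinset] at hn hm
      rw [abs_lt]
      have := hn.1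
      have := hn.2.1
      have := hm.1
      have := hm.2.1
      constructor <;> linarith
  have hc2 : (A2.ncard : ℝ) ≤ ((t + 1) / t ^ a) ^ k := by
    rw [Set.ncard_eq_toFinset_card _ hf2]
    apply card_big k _ _ t a ht
    · intro n hn
      rw [Set.Finite.mem_toFinset] at hn
      exact hn.2.2
    · intro n hn m hm
      rw [Set.Finite.mem_toFinset] at hn hm
      rw [abs_lt]
      have := hn.1
      have := hn.2.1
      have := hm.1
      have := hm.2.1
      constructor <;> linarith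
  have hc3 : (A3.ncard : ℝ) ≤ (k : ℝ) * k := by exact_mod_cast (ncard_hit k k).2
  have hc4 : (A4.ncard : ℝ) ≤ ((PS (2 * (3 : ℝ) ^ (a * k))).ncard : ℝ) := by
    exact_mod_cast Set.ncard_le_ncard_of_injOn (T^[k]) hmap4 hinj4 (PS_finite _)
  have hsub : PS (2 ^ k) ⊆ {0} ∪ (A1 ∪ (A2 ∪ (A3 ∪ A4))) := by
    rintro n ⟨hn, hn2⟩
    have hn3 : |n| ≤ 2 ^ k := by
      have : ((|n| : ℤ) : ℝ) ≤ ((2 ^ k : ℤ) : ℝ) := by push_cast; exact hn2
      exact_mod_cast this
    rw [abs_le] at hn3
    rcases lt_trichotomy n 0 with h0 | h0 | h0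
    · by_cases hc : a * k ≤ (code k n).card
      · right; right; left
        exact ⟨hn3.1, by omega, hc⟩
      · right; right; right; right
        refine ⟨hn, ?_⟩
        obtain ⟨h1, h2⟩ := iter_neg k n h0
        have h3 : (2 : ℝ) ^ k * |((T^[k] n : ℤ) : ℝ)| ≤ 3 ^ (code k n).card * |(n : ℝ)| := by
          exact_mod_cast h2
        have h4 : (3 : ℝ) ^ (code k n).card ≤ (3 : ℝ) ^ (a * k) := by
          rw [← Real.rpow_natCast]
          exact Real.rpow_le_rpow_of_exponent_le (by norm_num) (le_of_lt (not_le.1 hc))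
        have h5 : (2 : ℝ) ^ k * |((T^[k] n : ℤ) : ℝ)| ≤ 2 ^ k * (3 : ℝ) ^ (a * k) := by
          calc _ ≤ _ := h3
            _ ≤ (3 : ℝ) ^ (a * k) * 2 ^ k := by gcongr
            _ = _ := by ring
        have h6 := le_of_mul_le_mul_left h5 (by positivity)
        have h7 : (0 : ℝ) < (3 : ℝ) ^ (a * k) := by positivity
        linarith
    · left; exact h0
    · by_cases hc : a * k ≤ (code k n).card
      · right; left
        exact ⟨by omega, hn3.2, hc⟩
      · by_cases hd : ∃ i < k, T^[i] n ≤ k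
        · right; right; right; left
          obtain ⟨i, hi, hle⟩ := hd
          exact ⟨hn, i, hi, by have := iter_pos_pos i n h0; omega, hle⟩
        · right; right; right; right
          refine ⟨hn, ?_⟩
          push Not at hd
          have hkp : (0 : ℝ) < k := by exact_mod_cast hk
          obtain ⟨h1, h2⟩ := iter_pos (k : ℝ) hkp k n h0 (by
            intro i hi
            have := le_of_lt (hd i hi)
            exact_mod_cast this)
          have h3 : (1 + 1 / (3 * (k : ℝ))) ^ k ≤ 2 := by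
            calc (1 + 1 / (3 * (k : ℝ))) ^ k ≤ (Real.exp (1 / (3 * (k : ℝ)))) ^ k := by
                  have := Real.add_one_le_exp (1 / (3 * (k : ℝ)))
                  have h0' : (0 : ℝ) ≤ 1 + 1 / (3 * (k : ℝ)) := by positivity
                  apply pow_le_pow_left₀ h0'
                  linarith
              _ = Real.exp (1 / 3) := by
                  rw [← Real.exp_nat_mul]
                  congr 1
                  field_simp
              _ ≤ 2 := exp_third
          have h4 : (3 : ℝ) ^ (code k n).card ≤ (3 : ℝ) ^ (a * k) := by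
            rw [← Real.rpow_natCast]
            exact Real.rpow_le_rpow_of_exponent_le (by norm_num) (le_of_lt (not_le.1 hc))
          have hn4 : (n : ℝ) ≤ 2 ^ k := by exact_mod_cast hn3.2
          have hn5 : (0 : ℝ) ≤ n := by exact_mod_cast h0.le
          have h5 : (2 : ℝ) ^ k * ((T^[k] n : ℤ) : ℝ) ≤ 2 ^ k * (2 * (3 : ℝ) ^ (a * k)) := by
            calc _ ≤ _ := h2
              _ ≤ (3 : ℝ) ^ (a * k) * 2 * 2 ^ k := by gcongr
              _ = _ := by ring
          have h6 := le_of_mul_le_mul_left h5 (by positivity)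
          have h7 : (0 : ℝ) < ((T^[k] n : ℤ) : ℝ) := by exact_mod_cast h1
          rw [abs_of_pos h7]
          exact h6
  have hfin : ({0} ∪ (A1 ∪ (A2 ∪ (A3 ∪ A4))) : Set ℤ).Finite :=
    (Set.finite_singleton 0).union (hf1.union (hf2.union (hf3.union hf4)))
  have hle := Set.ncard_le_ncard hsub hfin
  have u1 := Set.ncard_union_le ({0} : Set ℤ) (A1 ∪ (A2 ∪ (A3 ∪ A4)))
  have u2 := Set.ncard_union_le A1 (A2 ∪ (A3 ∪ A4))
  have u3 := Set.ncard_union_le A2 (A3 ∪ A4)
  have u4 := Set.ncard_union_le A3 A4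
  rw [Set.ncard_singleton] at u1
  have htot : (PS (2 ^ k)).ncard ≤ 1 + A1.ncard + A2.ncard + A3.ncard + A4.ncard := by omega
  have htot' : ((PS (2 ^ k)).ncard : ℝ) ≤ 1 + A1.ncard + A2.ncard + A3.ncard + A4.ncard := by
    exact_mod_cast htot
  linarith

end Pool.Agent.helper62.Col
end
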