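import Pool.Agent.helper62.Col.Asym

/-!
# Counting the solutions of `T^k n = n`
-/
set_option autoImplicit false
noncomputable section
namespace Pool.Agent.helper62.Col

theorem sum_weight_inj (k : ℕ) (S : Finset ℤ) (hinj : Set.InjOn (code k) (S : Set ℤ)) (t : ℝ) (ht : 0 ≤ t) :
    ∑ n ∈ S, t ^ (code k n).card ≤ (t + 1) ^ k := by
  calc ∑ n ∈ S, t ^ (code k n).card = ∑ U ∈ S.image (code k), t ^ U.card := by
        rw [Finset.sum_image hinj]
    _ ≤ ∑ U ∈ (Finset.range k).powerset, t ^ U.card := by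
        apply Finset.sum_le_sum_of_subset_of_nonneg
        · intro U hU
          rw [Finset.mem_image] at hU
          obtain ⟨n, _, rfl⟩ := hU
          exact Finset.mem_powerset.2 (code_subset k n)
        · intro U _ _
          positivity
    _ = (t + 1) ^ k := by
        have := Finset.sum_pow_mul_eq_add_pow t (1 : ℝ) (Finset.range k)
        simpa using this

theorem card_big_inj (k : ℕ) (S : Finset ℤ) (hinj : Set.InjOn (code k) (S : Set ℤ)) (t a : ℝ) (ht : 1 ≤ t)
    (hb : ∀ n ∈ S, a * k ≤ (code k n).card) : (S.card : ℝ) ≤ ((t + 1) / t ^ a) ^ k := by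
  have h1 := sum_weight_inj k S hinj t (by linarith)
  have h2 : (S.card : ℝ) * (t ^ a) ^ k ≤ ∑ n ∈ S, t ^ (code k n).card := by
    rw [← nsmul_eq_mul, ← Finset.sum_const]
    apply Finset.sum_le_sum
    intro n hn
    rw [← Real.rpow_natCast (t ^ a) k, ← Real.rpow_mul (by linarith), ← Real.rpow_natCast]
    exact Real.rpow_le_rpow_of_exponent_le ht (hb n hn)
  have h3 : (0 : ℝ) < (t ^ a) ^ k := by positivity
  rw [div_pow, le_div_iff₀ h3]
  linarith

theorem code_head {k : ℕ} {n m : ℤ} (h : code (k + 1) n = code (k + 1) m) :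
    (n % 2 = 0 ↔ m % 2 = 0) := by
  have h1 : (0 ∈ code (k + 1) n) ↔ (0 ∈ code (k + 1) m) := by rw [h]
  rw [mem_code, mem_code] at h1
  simp only [Function.iterate_zero, id_eq, Nat.zero_lt_succ, true_and] at h1
  tauto

theorem code_tail {k : ℕ} {n m : ℤ} (h : code (k + 1) n = code (k + 1) m) :
    code k (T n) = code k (T m) := by
  ext i
  have h1 : (i + 1 ∈ code (k + 1) n) ↔ (i + 1 ∈ code (k + 1) m) := by rw [h]
  rw [mem_code, mem_code] at h1
  rw [Function.iterate_succ_apply, Function.iterate_succ_apply] at h1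
  rw [mem_code, mem_code]
  constructor
  · rintro ⟨h3, h4⟩
    exact ⟨h3, (h1.1 ⟨by omega, h4⟩).2⟩
  · rintro ⟨h3, h4⟩
    exact ⟨h3, (h1.2 ⟨by omega, h4⟩).2⟩

/-- the affine formula for differences -/
theorem diff_formula (k : ℕ) : ∀ (n m : ℤ), code k n = code k m →
    (2 : ℤ) ^ k * (T^[k] n - T^[k] m) = 3 ^ (code k n).card * (n - m) := by
  induction k with
  | zero => intro n m _; simp [code]
  | succ k ih =>
    intro n m h
    have h0 := code_head h
    have h2 := code_tail h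
    have h3 := ih _ _ h2
    rw [Function.iterate_succ_apply, Function.iterate_succ_apply, card_code_succ]
    have e : 2 * (T n - T m) = 3 ^ (if n % 2 = 0 then 0 else 1) * (n - m) := by
      by_cases hn : n % 2 = 0
      · have hm := h0.1 hn
        have := two_mul_T_even hn
        have := two_mul_T_even hm
        rw [if_pos hn]; linarith
      · have hm : ¬ m % 2 = 0 := fun h => hn (h0.2 h)
        have := two_mul_T_odd hn
        have := two_mul_T_odd hm
        rw [if_neg hn]; linarith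
    calc (2 : ℤ) ^ (k + 1) * (T^[k] (T n) - T^[k] (T m))
        = 2 * (2 ^ k * (T^[k] (T n) - T^[k] (T m))) := by ring
      _ = 2 * (3 ^ (code k (T n)).card * (T n - T m)) := by rw [h3]
      _ = 3 ^ (code k (T n)).card * (2 * (T n - T m)) := by ring
      _ = 3 ^ (code k (T n)).card * (3 ^ (if n % 2 = 0 then 0 else 1) * (n - m)) := by rw [e]
      _ = 3 ^ ((code k (T n)).card + (if n % 2 = 0 then 0 else 1)) * (n - m) := by
          rw [pow_add]; ring

/-- the code is injective on the solutions of `T^k n = n` -/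
theorem code_inj_fixed (k : ℕ) (hk : 1 ≤ k) : Set.InjOn (code k) {n : ℤ | T^[k] n = n} := by
  intro n hn m hm h
  have h1 := diff_formula k n m h
  have hn' : T^[k] n = n := hn
  have hm' : T^[k] m = m := hm
  rw [hn', hm'] at h1
  have h2 : ((2 : ℤ) ^ k - 3 ^ (code k n).card) * (n - m) = 0 := by linarith
  rcases mul_eq_zero.1 h2 with h3 | h3
  · exfalso
    have h4 : (2 : ℤ) ^ k = 3 ^ (code k n).card := by linarith
    have h5 : Even ((2 : ℤ) ^ k) := (even_two).pow_of_ne_zero (by omega)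
    have h6 : Odd ((3 : ℤ) ^ (code k n).card) := Odd.pow (by decide)
    rw [h4] at h5
    exact (Int.not_even_iff_odd.2 h6) h5
  · linarith

theorem fixed_finite (k : ℕ) (hk : 1 ≤ k) : {n : ℤ | T^[k] n = n}.Finite := by
  have hmap : Set.MapsTo (code k) {n : ℤ | T^[k] n = n} ((Finset.range k).powerset : Set (Finset ℕ)) := by
    intro n _
    exact Finset.mem_coe.2 (Finset.mem_powerset.2 (code_subset k n))
  exact Set.Finite.of_injOn hmap (code_inj_fixed k hk) (Finset.finite_toSet _)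

theorem fixed_bound (s : ℝ) (hs : kap < s) : ∃ C : ℝ, 0 < C ∧
    ∀ k : ℕ, 1 ≤ k → (({n : ℤ | T^[k] n = n}.ncard : ℕ) : ℝ) ≤ C * ((2 : ℝ) ^ k) ^ s := by
  obtain ⟨a, t, ha, ht, h3a, hb⟩ := choice s hs
  have hs0 : 0 < s := lt_trans kap_pos hs
  set q : ℝ := (2 : ℝ) ^ s with hq
  have hq1 : 1 < q := Real.one_lt_rpow (by norm_num) hs0
  have htp : 0 < t := by linarith
  obtain ⟨C1, hC1, hE⟩ := error_bound ((t + 1) / t ^ a) q (by positivity) hb hq1
  -- the constant Y
  obtain ⟨Y, hY1, hY⟩ : ∃ Y : ℕ, 1 ≤ Y ∧ (3 : ℝ) ^ a * (1 + 1 / (3 * Y)) < 2 := by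
    obtain ⟨Y, hY⟩ := exists_nat_gt ((3 : ℝ) ^ a / (3 * (2 - (3 : ℝ) ^ a)))
    have hpos : 0 < (3 : ℝ) ^ a / (3 * (2 - (3 : ℝ) ^ a)) := by
      have : 0 < 2 - (3 : ℝ) ^ a := by linarith
      positivity
    have hYp : (0 : ℝ) < Y := lt_trans hpos hY
    refine ⟨Y, by exact_mod_cast hYp, ?_⟩
    have h2 : 0 < 2 - (3 : ℝ) ^ a := by linarith
    rw [div_lt_iff₀ (by positivity)] at hY
    have h3 : (3 : ℝ) ^ a * (1 + 1 / (3 * Y)) = (3 : ℝ) ^ a + (3 : ℝ) ^ a / (3 * Y) := by field_simp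
    rw [h3]
    have h4 : (3 : ℝ) ^ a / (3 * Y) < 2 - (3 : ℝ) ^ a := by
      rw [div_lt_iff₀ (by positivity)]
      linarith
    linarith
  have hYp : (0 : ℝ) < Y := by exact_mod_cast hY1
  refine ⟨C1 * (1 + Y), by positivity, fun k hk => ?_⟩
  set A1 : Set ℤ := {n : ℤ | T^[k] n = n ∧ a * k ≤ (code k n).card} with hA1
  set A3 : Set ℤ := {n : ℤ | n ∈ Function.periodicPts T ∧ ∃ i < k, 1 ≤ T^[i] n ∧ T^[i] n ≤ Y} with hA3
  have hf1 : A1.Finite := (fixed_finite k hk).subset fun n hn => hn.1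
  have hf3 : A3.Finite := (ncard_hit k Y).1
  have hc1 : (A1.ncard : ℝ) ≤ ((t + 1) / t ^ a) ^ k := by
    rw [Set.ncard_eq_toFinset_card _ hf1]
    apply card_big_inj k _ _ t a ht
    · intro n hn
      rw [Set.Finite.mem_toFinset] at hn
      exact hn.2
    · intro n hn m hm h
      rw [Set.Finite.coe_toFinset] at hn hm
      exact code_inj_fixed k hk hn.1 hm.1 h
  have hc3 : (A3.ncard : ℝ) ≤ (k : ℝ) * Y := by exact_mod_cast (ncard_hit k Y).2
  have hsub : {n : ℤ | T^[k] n = n} ⊆ {0} ∪ (A1 ∪ A3) := by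
    intro n hn
    have hn' : T^[k] n = n := hn
    have hper : n ∈ Function.periodicPts T := ⟨k, by omega, hn'⟩
    by_cases hc : a * k ≤ (code k n).card
    · right; left; exact ⟨hn', hc⟩
    · have h4 : (3 : ℝ) ^ (code k n).card ≤ ((3 : ℝ) ^ a) ^ k := by
        rw [← Real.rpow_natCast, ← Real.rpow_natCast, ← Real.rpow_mul (by norm_num)]
        exact Real.rpow_le_rpow_of_exponent_le (by norm_num) (le_of_lt (not_le.1 hc))
      rcases lt_trichotomy n 0 with h0 | h0 | h0
      · exfalso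
        obtain ⟨h1, h2⟩ := iter_neg k n h0
        rw [hn'] at h2
        have h3 : (2 : ℝ) ^ k * |(n : ℝ)| ≤ 3 ^ (code k n).card * |(n : ℝ)| := by
          exact_mod_cast h2
        have h5 : (0 : ℝ) < |(n : ℝ)| := by
          rw [abs_pos]; exact_mod_cast h0.ne
        have h6 : (2 : ℝ) ^ k ≤ 3 ^ (code k n).card := le_of_mul_le_mul_right h3 h5
        have h7 : ((3 : ℝ) ^ a) ^ k < 2 ^ k := pow_lt_pow_left₀ h3a (by positivity) (by omega)
        linarith
      · left; exact h0
      · by_cases hd : ∃ i < k, T^[i] n ≤ Y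
        · right; right
          obtain ⟨i, hi, hle⟩ := hd
          exact ⟨hper, i, hi, by have := iter_pos_pos i n h0; omega, hle⟩
        · exfalso
          push Not at hd
          obtain ⟨h1, h2⟩ := iter_pos (Y : ℝ) hYp k n h0 (by
            intro i hi
            have := le_of_lt (hd i hi)
            exact_mod_cast this)
          rw [hn'] at h2
          have h5 : (0 : ℝ) < (n : ℝ) := by exact_mod_cast h0
          have h6 : (2 : ℝ) ^ k ≤ 3 ^ (code k n).card * (1 + 1 / (3 * (Y : ℝ))) ^ k :=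
            le_of_mul_le_mul_right h2 h5
          have h7 : (3 : ℝ) ^ (code k n).card * (1 + 1 / (3 * (Y : ℝ))) ^ k ≤
              ((3 : ℝ) ^ a * (1 + 1 / (3 * Y))) ^ k := by
            rw [mul_pow]
            gcongr
          have h8 : ((3 : ℝ) ^ a * (1 + 1 / (3 * Y))) ^ k < 2 ^ k :=
            pow_lt_pow_left₀ hY (by positivity) (by omega)
          linarith
  have hfin : ({0} ∪ (A1 ∪ A3) : Set ℤ).Finite := (Set.finite_singleton 0).union (hf1.union hf3)
  have hle := Set.ncard_le_ncard hsub hfin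
  have u1 := Set.ncard_union_le ({0} : Set ℤ) (A1 ∪ A3)
  have u2 := Set.ncard_union_le A1 A3
  rw [Set.ncard_singleton] at u1
  have htot : {n : ℤ | T^[k] n = n}.ncard ≤ 1 + A1.ncard + A3.ncard := by omega
  have htot' : (({n : ℤ | T^[k] n = n}.ncard : ℕ) : ℝ) ≤ 1 + A1.ncard + A3.ncard := by
    exact_mod_cast htot
  have h1 := hE k
  have hk1 : (1 : ℝ) ≤ k := by exact_mod_cast hk
  have hb0 : 0 ≤ ((t + 1) / t ^ a) ^ k := by positivity
  have hqk : 0 < q ^ k := by positivity
  have e1 : 1 + ((t + 1) / t ^ a) ^ k ≤ C1 * q ^ k := by nlinarith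
  have e2 : (k : ℝ) * Y ≤ C1 * q ^ k * Y := by
    apply mul_le_mul_of_nonneg_right _ hYp.le
    nlinarith
  calc (({n : ℤ | T^[k] n = n}.ncard : ℕ) : ℝ) ≤ C1 * q ^ k + C1 * q ^ k * Y := by linarith
    _ = C1 * (1 + Y) * q ^ k := by ring
    _ = C1 * (1 + Y) * ((2 : ℝ) ^ k) ^ s := by
        congr 1
        rw [hq, ← Real.rpow_natCast, ← Real.rpow_natCast, ← Real.rpow_mul (by norm_num),
          ← Real.rpow_mul (by norm_num), mul_comm]

end Pool.Agent.helper62.Col
end
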